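import Pool.Agent.W650.HL.Stm

set_option autoImplicit false

/-!
Part LAM of project HL (problem MP_66e4ee_co).
-/

namespace Pool.Agent.W768.HL

open Pool.W650.HL Finset

theorem lam : LAM := by
  intro r a hr hpos hsum
  have i0 : Fin r := ⟨0, by omega⟩
  let j0 : Fin r := ⟨0, by omega⟩
  let j1 : Fin r := ⟨1, by omega⟩
  have hne : j0 ≠ j1 := by
    intro h
    have := congrArg Fin.val h
    simp [j0, j1] at this
  set t0 : ℝ := min (a j0) (a j1) with ht0
  have ht0pos : 0 < t0 := lt_min (hpos _) (hpos _)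
  have hle1 : ∀ i, a i ≤ 1 := by
    intro i
    rw [← hsum]
    exact Finset.single_le_sum (fun j _ => (hpos j).le) (Finset.mem_univ i)
  have ht01 : t0 ≤ 1 := (min_le_left _ _).trans (hle1 _)
  have hcont : ContinuousOn (fun t : ℝ => ∑ i, a i / (t + a i)) (Set.Icc t0 1) := by
    apply continuousOn_finsetSum
    intro i _
    apply ContinuousOn.div continuousOn_const (continuousOn_id.add continuousOn_const)
    intro t ht
    have h1 : 0 < t := lt_of_lt_of_le ht0pos ht.1
    have h2 := hpos i
    exact (add_pos h1 h2).ne'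
  have h1 : (fun t : ℝ => ∑ i, a i / (t + a i)) 1 ≤ 1 := by
    show ∑ i, a i / (1 + a i) ≤ 1
    rw [← hsum]
    apply Finset.sum_le_sum
    intro i _
    have h2 := hpos i
    rw [div_le_iff₀ (by linarith)]
    nlinarith
  have h2 : 1 ≤ (fun t : ℝ => ∑ i, a i / (t + a i)) t0 := by
    show 1 ≤ ∑ i, a i / (t0 + a i)
    have hsub : ∑ i ∈ ({j0, j1} : Finset (Fin r)), a i / (t0 + a i) ≤ ∑ i, a i / (t0 + a i) := by
      apply Finset.sum_le_sum_of_subset_of_nonneg (Finset.subset_univ _)
      intro i _ _
      have := hpos i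
      positivity
    rw [Finset.sum_pair hne] at hsub
    have hhalf : ∀ j, t0 ≤ a j → 1 / 2 ≤ a j / (t0 + a j) := by
      intro j hj
      have := hpos j
      rw [div_le_div_iff₀ (by norm_num) (by linarith)]
      linarith
    have h3 := hhalf j0 (min_le_left _ _)
    have h4 := hhalf j1 (min_le_right _ _)
    linarith
  obtain ⟨t, ht, hft⟩ := intermediate_value_Icc' ht01 hcont ⟨h1, h2⟩
  exact ⟨t, hpos, hsum, lt_of_lt_of_le ht0pos ht.1, hft⟩

theorem mfacts : MFACTS := by
  intro r a l hG
  obtain ⟨hpos, hsum, hl, heq⟩ := hG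
  have hne : (Finset.univ : Finset (Fin r)).Nonempty := by
    by_contra h
    rw [Finset.not_nonempty_iff_eq_empty] at h
    rw [h] at hsum
    simp at hsum
  have hla : ∀ i, 0 < l + a i := fun i => add_pos hl (hpos i)
  have hp0 : ∀ i, 0 < pp a l i := fun i => div_pos (hpos i) (hla i)
  have hp1 : ∀ i, pp a l i < 1 := by
    intro i
    unfold pp
    rw [div_lt_one (hla i)]
    linarith
  have hps : ∑ i, pp a l i = 1 := heq
  have hW : WW a l = ∑ i, pp a l i * (1 - pp a l i) := by
    have h1 : ∑ i, pp a l i * (1 - pp a l i) = ∑ i, pp a l i - ∑ i, pp a l i ^ 2 := by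
      rw [← Finset.sum_sub_distrib]
      apply Finset.sum_congr rfl
      intro i _
      ring
    rw [h1, hps]
    rfl
  have hWpos : 0 < WW a l := by
    rw [hW]
    apply Finset.sum_pos _ hne
    intro i _
    exact mul_pos (hp0 i) (sub_pos.2 (hp1 i))
  have ha1 : ∀ i, a i < 1 := by
    intro i
    have h1 : ∑ j ∈ Finset.univ.erase i, pp a l j = 1 - pp a l i := by
      rw [← hps, ← Finset.add_sum_erase _ _ (Finset.mem_univ i)]
      ring
    have h2 : (Finset.univ.erase i).Nonempty := by
      by_contra h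
      rw [Finset.not_nonempty_iff_eq_empty] at h
      rw [h, Finset.sum_empty] at h1
      have := hp1 i
      linarith
    have h3 : 0 < ∑ j ∈ Finset.univ.erase i, a j := Finset.sum_pos (fun j _ => hpos j) h2
    have h4 := Finset.add_sum_erase Finset.univ a (Finset.mem_univ i)
    rw [hsum] at h4
    linarith
  have hm0 : ∀ i, 0 < mm a l i := fun i =>
    div_pos (mul_pos (hp0 i) (sub_pos.2 (hp1 i))) hWpos
  have hms : ∑ i, mm a l i = 1 := by
    unfold mm
    rw [← Finset.sum_div, ← hW, div_self hWpos.ne']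
  -- m (1 + x) = p / W
  have hmx : ∀ i, mm a l i * (1 + a i / l) = pp a l i / WW a l := by
    intro i
    have h1 : (1 - pp a l i) * (1 + a i / l) = 1 := by
      unfold pp
      have := (hla i).ne'
      field_simp
      ring
    unfold mm
    calc pp a l i * (1 - pp a l i) / WW a l * (1 + a i / l)
        = pp a l i * ((1 - pp a l i) * (1 + a i / l)) / WW a l := by ring
      _ = pp a l i / WW a l := by rw [h1, mul_one]
  have hb : 1 + bb a l = 1 / WW a l := by
    have h1 : ∑ i, mm a l i * (1 + a i / l) = 1 / WW a l := by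
      rw [Finset.sum_congr rfl (fun i _ => hmx i), ← Finset.sum_div, hps]
    have h2 : ∑ i, mm a l i * (1 + a i / l) = ∑ i, mm a l i + bb a l := by
      unfold bb EE
      rw [← Finset.sum_add_distrib]
      apply Finset.sum_congr rfl
      intro i _
      ring
    rw [← h1, h2, hms]
  have hbpos : 0 < bb a l := by
    unfold bb EE
    apply Finset.sum_pos _ hne
    intro i _
    exact mul_pos (hm0 i) (div_pos (hpos i) hl)
  have hpx : ∑ i, pp a l i * (a i / l) = 1 / l - 1 := by
    have h1 : ∀ i, pp a l i * (a i / l) = a i / l - pp a l i := by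
      intro i
      unfold pp
      have := (hla i).ne'
      field_simp
      ring
    rw [Finset.sum_congr rfl (fun i _ => h1 i), Finset.sum_sub_distrib, ← Finset.sum_div, hsum,
      hps]
  have hE : EE a l (fun i => (a i / l - bb a l) ^ 2) = (1 + bb a l) * vv a l := by
    have h1 : ∑ i, mm a l i * ((1 + a i / l) * (a i / l)) = (1 + bb a l) * (1 / l - 1) := by
      have h2 : ∀ i, mm a l i * ((1 + a i / l) * (a i / l)) =
          pp a l i * (a i / l) / WW a l := by
        intro i
        rw [← mul_assoc, hmx i]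
        ring
      rw [Finset.sum_congr rfl (fun i _ => h2 i), ← Finset.sum_div, hpx, hb]
      ring
    have h2 : ∑ i, mm a l i * (a i / l) = bb a l := rfl
    have h3 : EE a l (fun i => (a i / l - bb a l) ^ 2) =
        ∑ i, mm a l i * ((1 + a i / l) * (a i / l))
          - (1 + 2 * bb a l) * ∑ i, mm a l i * (a i / l) + bb a l ^ 2 * ∑ i, mm a l i := by
      unfold EE
      rw [Finset.mul_sum, Finset.mul_sum, ← Finset.sum_sub_distrib, ← Finset.sum_add_distrib]
      apply Finset.sum_congr rfl
      intro i _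
      ring
    rw [h3, h1, h2, hms]
    unfold vv
    ring
  have hE0 : 0 ≤ EE a l (fun i => (a i / l - bb a l) ^ 2) := by
    unfold EE
    apply Finset.sum_nonneg
    intro i _
    exact mul_nonneg (hm0 i).le (sq_nonneg _)
  have hv : 0 ≤ vv a l := by
    rw [hE] at hE0
    exact nonneg_of_mul_nonneg_right hE0 (by linarith)
  exact ⟨hWpos, fun i => ⟨hp0 i, hp1 i, ha1 i⟩, hm0, hms, hb, hbpos, hv, hE⟩

end Pool.Agent.W768.HL
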